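import Mathlib
import Pool.Agent.Helper25.LS.Defs

/-!
# Project LS, goal BC: the trace of a map without large eigenvalues
The trace is the derivative at zero of the logarithm of the determinant of `1 + z A`, and the
Borel-Caratheodory inequality bounds it.
-/

set_option autoImplicit false

open Filter Topology Module Polynomial

noncomputable section

namespace Pool.Agent.Helper50.LS

open Pool.Agent.Helper25.LS

/-- the logarithm of the product of the factors `1 + z mu` -/
def lg (s : Multiset ℂ) (z : ℂ) : ℂ := (s.map (fun μ => Complex.log (1 + z * μ))).sum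

theorem re_pos_aux {R : ℝ} (hR : 0 < R) {μ z : ℂ} (h : R * ‖μ‖ < 1) (hz : ‖z‖ < R) :
    0 < (1 + z * μ).re := by
  have h1 : ‖z * μ‖ < 1 := by
    rw [norm_mul]
    calc ‖z‖ * ‖μ‖ ≤ R * ‖μ‖ := by gcongr
      _ < 1 := h
  have h2 : -‖z * μ‖ ≤ (z * μ).re := by
    have := Complex.abs_re_le_norm (z * μ)
    exact (abs_le.mp this).1
  simp only [Complex.add_re, Complex.one_re]
  linarith

theorem lg_props {R : ℝ} (hR : 0 < R) (s : Multiset ℂ) (hs : ∀ μ ∈ s, R * ‖μ‖ < 1) :
    DifferentiableOn ℂ (lg s) (Metric.ball 0 R) ∧ HasDerivAt (lg s) s.sum 0 ∧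
      lg s 0 = 0 ∧
      ∀ z ∈ Metric.ball (0 : ℂ) R, Complex.exp (lg s z) = (s.map (fun μ => 1 + z * μ)).prod := by
  induction s using Multiset.induction with
  | empty =>
    refine ⟨?_, ?_, ?_, ?_⟩
    · have : lg 0 = fun _ => (0 : ℂ) := by funext z; simp [lg]
      rw [this]; exact differentiableOn_const 0
    · have : lg 0 = fun _ => (0 : ℂ) := by funext z; simp [lg]
      rw [this]; simpa using hasDerivAt_const (0 : ℂ) (0 : ℂ)
    · simp [lg]
    · intro z _; simp [lg]
  | cons a s ih =>
    obtain ⟨h1, h2, h3, h4⟩ := ih (fun μ hμ => hs μ (Multiset.mem_cons_of_mem hμ))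
    have ha : R * ‖a‖ < 1 := hs a (Multiset.mem_cons_self a s)
    have e : lg (a ::ₘ s) = fun z => Complex.log (1 + z * a) + lg s z := by
      funext z; simp [lg]
    refine ⟨?_, ?_, ?_, ?_⟩
    · rw [e]
      refine DifferentiableOn.add ?_ h1
      intro z hz
      have hz' : ‖z‖ < R := mem_ball_zero_iff.mp hz
      have hp := re_pos_aux hR ha hz'
      refine DifferentiableWithinAt.clog ?_ (Or.inl hp)
      fun_prop
    · rw [e]
      have hd : HasDerivAt (fun z : ℂ => 1 + z * a) a 0 := by
        simpa using ((hasDerivAt_id (0 : ℂ)).mul_const a).const_add 1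
      have hl := hd.clog (by simp)
      have hl' : HasDerivAt (fun z : ℂ => Complex.log (1 + z * a)) a 0 := by
        simpa using hl
      rw [Multiset.sum_cons]
      exact hl'.add h2
    · rw [e]; simp [h3]
    · intro z hz
      have hz' : ‖z‖ < R := mem_ball_zero_iff.mp hz
      have hp := re_pos_aux hR ha hz'
      have hne : (1 + z * a) ≠ 0 := by
        intro h0; rw [h0] at hp; simp at hp
      rw [e]
      simp only [Multiset.map_cons, Multiset.prod_cons]
      rw [Complex.exp_add, Complex.exp_log hne, h4 z hz]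

theorem det_roots (V : Type) [AddCommGroup V] [Module ℂ V] [FiniteDimensional ℂ V]
    (A : V →ₗ[ℂ] V) (z : ℂ) :
    LinearMap.det (LinearMap.id + z • A) = (A.charpoly.roots.map (fun μ => 1 + z * μ)).prod := by
  have hsp : A.charpoly.Splits := IsAlgClosed.splits A.charpoly
  have hcard : A.charpoly.roots.card = finrank ℂ V := by
    rw [← A.charpoly_natDegree]
    exact (hsp.natDegree_eq_card_roots).symm
  by_cases hz : z = 0
  · subst hz
    have : (LinearMap.id + (0 : ℂ) • A) = LinearMap.id := by simp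
    rw [this, LinearMap.det_id]
    simp
  · have e1 : (LinearMap.id + z • A : V →ₗ[ℂ] V) =
        (-z) • (algebraMap ℂ (V →ₗ[ℂ] V) (-z⁻¹) - A) := by
      ext v
      simp only [LinearMap.add_apply, LinearMap.id_apply, LinearMap.smul_apply,
        LinearMap.sub_apply, Module.algebraMap_end_apply, smul_sub, smul_smul]
      have : -z * -z⁻¹ = 1 := by field_simp
      rw [this, one_smul]
      simp
    rw [e1, LinearMap.det_smul, ← LinearMap.eval_charpoly,
      hsp.eval_eq_prod_roots_of_monic A.charpoly_monic, ← hcard]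
    rw [← Multiset.prod_replicate, ← Multiset.map_const', ← Multiset.prod_map_mul]
    congr 1
    refine Multiset.map_congr rfl ?_
    intro a _
    field_simp
    ring

theorem bc : S_BC := by
  intro V _ _ _ A R B hR hB heig hdet
  have hsp : A.charpoly.Splits := IsAlgClosed.splits A.charpoly
  have htr : LinearMap.trace ℂ V A = A.charpoly.roots.sum :=
    Module.End.trace_eq_sum_roots_charpoly_of_splits hsp
  have hs : ∀ μ ∈ A.charpoly.roots, R * ‖μ‖ < 1 := by
    intro μ hμ
    by_contra hcon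
    push Not at hcon
    have hr : A.charpoly.IsRoot μ := Polynomial.isRoot_of_mem_roots hμ
    have he : Module.End.HasEigenvalue A μ :=
      (Module.End.hasEigenvalue_iff_isRoot_charpoly A μ).mpr hr
    obtain ⟨v, hv⟩ := he.exists_hasEigenvector
    exact hv.2 (heig μ v hcon hv.apply_eq_smul)
  obtain ⟨h1, h2, h3, h4⟩ := lg_props hR A.charpoly.roots hs
  rw [htr]
  have hmaps : Set.MapsTo (lg A.charpoly.roots) (Metric.ball 0 R) {z | z.re ≤ B} := by
    intro z hz
    have hz' : ‖z‖ < R := mem_ball_zero_iff.mp hz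
    have e := h4 z hz
    rw [← det_roots V A z] at e
    have hd := hdet z hz'.le
    rw [← e, Complex.norm_exp] at hd
    exact Real.exp_le_exp.mp hd
  have hb : ∀ z ∈ Metric.ball (0 : ℂ) R, ‖lg A.charpoly.roots z‖ ≤ 2 * B * ‖z‖ / (R - ‖z‖) :=
    fun z hz => Complex.borelCaratheodory_zero hB h1 hmaps hR hz h3
  have ht := hasDerivAt_iff_tendsto_slope_zero.mp h2
  have htn := ht.norm
  have hlim : Tendsto (fun z : ℂ => 2 * B / (R - ‖z‖)) (𝓝[≠] 0) (𝓝 (2 * B / R)) := by
    have hc : ContinuousAt (fun z : ℂ => 2 * B / (R - ‖z‖)) 0 := by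
      refine ContinuousAt.div continuousAt_const (by fun_prop) ?_
      simp [hR.ne']
    have := hc.tendsto
    simp only [norm_zero, sub_zero] at this
    exact this.mono_left nhdsWithin_le_nhds
  refine le_of_tendsto_of_tendsto htn hlim ?_
  have hball : ∀ᶠ z in 𝓝[≠] (0 : ℂ), z ∈ Metric.ball (0 : ℂ) R :=
    mem_nhdsWithin_of_mem_nhds (Metric.ball_mem_nhds 0 hR)
  have hne : ∀ᶠ z in 𝓝[≠] (0 : ℂ), z ≠ 0 := self_mem_nhdsWithin
  filter_upwards [hball, hne] with z hz hz0
  have hz' : ‖z‖ < R := mem_ball_zero_iff.mp hz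
  have hzp : 0 < ‖z‖ := norm_pos_iff.mpr hz0
  rw [h3, sub_zero, zero_add, norm_smul, norm_inv]
  have hbz := hb z hz
  have hd : 0 < R - ‖z‖ := by linarith
  calc ‖z‖⁻¹ * ‖lg A.charpoly.roots z‖ ≤ ‖z‖⁻¹ * (2 * B * ‖z‖ / (R - ‖z‖)) := by gcongr
    _ = 2 * B / (R - ‖z‖) := by field_simp

end Pool.Agent.Helper50.LS
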